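import Mathlib.Topology.Basic

/-!
Definitions: open covers, ω-covers, Rothberger and ω-Rothberger spaces.
-/

set_option autoImplicit false

namespace Pool.Agent.Lib.MP_f9bcb0_lc

universe u

/-- `𝒰` is an open cover of `X`. -/
def IsOpenCover {X : Type u} [TopologicalSpace X] (𝒰 : Set (Set X)) : Prop :=
  (∀ U ∈ 𝒰, IsOpen U) ∧ ⋃₀ 𝒰 = Set.univ

/-- `𝒰` is an ω-cover of `X`: an open cover not containing `X` itself such that every finite
subset of `X` is contained in a member of `𝒰`. -/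
def IsOmegaCover {X : Type u} [TopologicalSpace X] (𝒰 : Set (Set X)) : Prop :=
  IsOpenCover 𝒰 ∧ Set.univ ∉ 𝒰 ∧ ∀ F : Set X, F.Finite → ∃ U ∈ 𝒰, F ⊆ U

/-- `X` is Rothberger, i.e. has the selection property S₁(O, O). -/
def Rothberger (X : Type u) [TopologicalSpace X] : Prop :=
  ∀ 𝒰 : ℕ → Set (Set X), (∀ n, IsOpenCover (𝒰 n)) →
    ∃ U : ℕ → Set X, (∀ n, U n ∈ 𝒰 n) ∧ IsOpenCover (Set.range U)

/-- `X` is ω-Rothberger, i.e. has the selection property S₁(Ω, Ω). -/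
def OmegaRothberger (X : Type u) [TopologicalSpace X] : Prop :=
  ∀ 𝒰 : ℕ → Set (Set X), (∀ n, IsOmegaCover (𝒰 n)) →
    ∃ U : ℕ → Set X, (∀ n, U n ∈ 𝒰 n) ∧ IsOmegaCover (Set.range U)

end Pool.Agent.Lib.MP_f9bcb0_lc
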