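import Pool.Agent.Lib.MP_f9bcb0_lc.Main

/-!
The one-sided (Sorgenfrey type) topologies on the set `LL ρ`.
-/

set_option autoImplicit false
set_option linter.unusedSectionVars false

namespace Pool.Agent.Lib.MP_f9bcb0_lc

universe u

variable {Ω : Type u} [LinearOrder Ω] [WellFoundedLT Ω] {M : Type}

/-- strict total orders -/
structure STot (r : M → M → Prop) : Prop where
  tot : ∀ a b, a ≠ b → r a b ∨ r b a
  irr : ∀ a, ¬ r a a
  asymm : ∀ a b, r a b → ¬ r b a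
  trans : ∀ a b c, r a b → r b c → r a c

theorem LexLt.irrefl' {r : M → M → Prop} (hr : STot r) (x : Ω → M) : ¬ LexLt r x x := by
  rintro ⟨ξ, _, h⟩
  exact hr.irr _ h

theorem LexLt.trans' {r : M → M → Prop} (hr : STot r) {x y z : Ω → M} (h1 : LexLt r x y)
    (h2 : LexLt r y z) : LexLt r x z := by
  obtain ⟨ξ, a1, a2⟩ := h1
  obtain ⟨ζ, b1, b2⟩ := h2
  rcases lt_trichotomy ξ ζ with h | h | h
  · refine ⟨ξ, fun η hη => (a1 η hη).trans (b1 η (lt_trans hη h)), ?_⟩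
    rw [← b1 ξ h]
    exact a2
  · subst h
    exact ⟨ξ, fun η hη => (a1 η hη).trans (b1 η hη), hr.trans _ _ _ a2 b2⟩
  · refine ⟨ζ, fun η hη => (a1 η (lt_trans hη h)).trans (b1 η hη), ?_⟩
    rw [a1 ζ h]
    exact b2

theorem LexLt.tot {r : M → M → Prop} (hr : STot r) {x y : Ω → M} (h : x ≠ y) :
    LexLt r x y ∨ LexLt r y x := by
  have hne : {ξ | x ξ ≠ y ξ}.Nonempty := by
    by_contra hcon
    apply h
    funext ξ
    by_contra h2
    exact hcon ⟨ξ, h2⟩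
  have h1 := (wellFounded_lt (α := Ω)).min_mem _ hne
  have h2 : ∀ η, η < (wellFounded_lt (α := Ω)).min _ hne → x η = y η := by
    intro η hη
    by_contra h3
    exact (wellFounded_lt (α := Ω)).not_lt_min _ (show η ∈ {ξ | x ξ ≠ y ξ} from h3) hη
  rcases hr.tot _ _ h1 with h3 | h3
  · left
    exact ⟨_, h2, h3⟩
  · right
    exact ⟨_, fun η hη => (h2 η hη).symm, h3⟩

/-- the space `LL ρ` with the one-sided topology given by `r` -/
def Lp (ρ : Ω → Ω → M) (_r : M → M → Prop) : Type u := {x : Ω → M // x ∈ LL ρ}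

/-- the subbase -/
def subb (ρ : Ω → Ω → M) (r : M → M → Prop) : Set (Set (Lp ρ r)) :=
  {s | ∃ a : Lp ρ r, s = {x | ¬ LexLt r x.1 a.1} ∨ s = {x | LexLt r x.1 a.1}}

instance (ρ : Ω → Ω → M) (r : M → M → Prop) : TopologicalSpace (Lp ρ r) :=
  TopologicalSpace.generateFrom (subb ρ r)

theorem isOpen_Ici (ρ : Ω → Ω → M) (r : M → M → Prop) (a : Lp ρ r) :
    IsOpen {x : Lp ρ r | ¬ LexLt r x.1 a.1} :=
  TopologicalSpace.isOpen_generateFrom_of_mem ⟨a, Or.inl rfl⟩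

theorem isOpen_Iio (ρ : Ω → Ω → M) (r : M → M → Prop) (a : Lp ρ r) :
    IsOpen {x : Lp ρ r | LexLt r x.1 a.1} :=
  TopologicalSpace.isOpen_generateFrom_of_mem ⟨a, Or.inr rfl⟩

theorem subb_clopen (ρ : Ω → Ω → M) (r : M → M → Prop) {s : Set (Lp ρ r)} (hs : s ∈ subb ρ r) :
    IsClopen s := by
  obtain ⟨a, rfl | rfl⟩ := hs
  · refine ⟨⟨?_⟩, isOpen_Ici ρ r a⟩
    convert isOpen_Iio ρ r a using 1
    ext x
    simp
  · refine ⟨⟨?_⟩, isOpen_Iio ρ r a⟩
    exact isOpen_Ici ρ r a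

theorem basis_clopen (ρ : Ω → Ω → M) (r : M → M → Prop) :
    TopologicalSpace.IsTopologicalBasis {s : Set (Lp ρ r) | IsClopen s} := by
  have hb := TopologicalSpace.isTopologicalBasis_of_subbasis (t := inferInstanceAs
    (TopologicalSpace (Lp ρ r))) (s := subb ρ r) rfl
  refine TopologicalSpace.isTopologicalBasis_of_isOpen_of_nhds (fun u hu => hu.isOpen) ?_
  intro a u ha hu
  obtain ⟨v, hv, hav, hvu⟩ := hb.exists_subset_of_mem_open ha hu
  refine ⟨v, ?_, hav, hvu⟩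
  obtain ⟨f, ⟨hf1, hf2⟩, rfl⟩ := hv
  exact ⟨isClosed_sInter (fun s hs => (subb_clopen ρ r (hf2 hs)).1),
    hf1.isOpen_sInter (fun s hs => (subb_clopen ρ r (hf2 hs)).2)⟩

theorem t2_Lp (ρ : Ω → Ω → M) {r : M → M → Prop} (hr : STot r) : T2Space (Lp ρ r) := by
  refine ⟨fun x y hxy => ?_⟩
  have hne : x.1 ≠ y.1 := fun h => hxy (Subtype.ext h)
  have hdisj : ∀ a : Lp ρ r, Disjoint {z : Lp ρ r | LexLt r z.1 a.1}
      {z : Lp ρ r | ¬ LexLt r z.1 a.1} := by
    intro a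
    rw [Set.disjoint_left]
    intro z h1 h2
    exact h2 h1
  rcases LexLt.tot hr hne with h | h
  · exact ⟨_, _, isOpen_Iio ρ r y, isOpen_Ici ρ r y, h, LexLt.irrefl' hr _, hdisj y⟩
  · exact ⟨_, _, isOpen_Ici ρ r x, isOpen_Iio ρ r x, LexLt.irrefl' hr _, h, (hdisj x).symm⟩

theorem open_nb (ρ : Ω → Ω → M) {r : M → M → Prop} (hr : STot r) (m : M)
    (hm : ∀ a, ¬ r m a) (U : Set (Lp ρ r)) (hU : IsOpen U) :
    ∀ y ∈ U, (∃ ξ, y.1 ξ ≠ m) → ∃ σ, y.1 σ ≠ m ∧
      ∀ z : Lp ρ r, ¬ LexLt r z.1 y.1 → (∀ ξ, ξ ≤ σ → z.1 ξ = y.1 ξ) → z ∈ U := by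
  have hU' : TopologicalSpace.GenerateOpen (subb ρ r) U := hU
  induction hU' with
  | basic s hs =>
    intro y hy hyne
    obtain ⟨a, rfl | rfl⟩ := hs
    · obtain ⟨σ, hσ⟩ := hyne
      refine ⟨σ, hσ, ?_⟩
      intro z hz _ hza
      -- z < a ≤ y
      by_cases hya : a.1 = y.1
      · rw [hya] at hza
        exact hz hza
      · rcases LexLt.tot hr hya with h | h
        · exact hz (hza.trans' hr h)
        · exact hy h
    · obtain ⟨ξ, h1, h2⟩ := hy
      refine ⟨ξ, ?_, ?_⟩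
      · intro h3
        rw [h3] at h2
        exact hm _ h2
      · intro z _ hag
        refine ⟨ξ, fun η hη => ?_, ?_⟩
        · rw [hag η hη.le]
          exact h1 η hη
        · rw [hag ξ (le_refl ξ)]
          exact h2
  | univ =>
    intro y _ hyne
    obtain ⟨σ, hσ⟩ := hyne
    exact ⟨σ, hσ, fun _ _ _ => trivial⟩
  | inter s t hs ht ihs iht =>
    intro y hy hyne
    obtain ⟨σ, h1, h2⟩ := ihs hs y hy.1 hyne
    obtain ⟨σ', h3, h4⟩ := iht ht y hy.2 hyne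
    rcases le_total σ σ' with h | h
    · exact ⟨σ', h3, fun z hz hag =>
        ⟨h2 z hz (fun ξ hξ => hag ξ (le_trans hξ h)), h4 z hz hag⟩⟩
    · exact ⟨σ, h1, fun z hz hag =>
        ⟨h2 z hz hag, h4 z hz (fun ξ hξ => hag ξ (le_trans hξ h))⟩⟩
  | sUnion S hS ih =>
    intro y hy hyne
    obtain ⟨s, hs, hys⟩ := hy
    obtain ⟨σ, h1, h2⟩ := ih s hs (hS s hs) y hys hyne
    exact ⟨σ, h1, fun z hz hag => ⟨s, hs, h2 z hz hag⟩⟩

/-- Each of the one-sided spaces has the Rothberger property. -/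
theorem rothberger_Lp [Countable M] (hc : ∀ a : Ω, (Set.Iio a).Countable)
    (hu : ¬ (Set.univ : Set Ω).Countable) {ρ : Ω → Ω → M} (hρ : Coh ρ) (m : M)
    {r : M → M → Prop} (hr : STot r) (hm : ∀ a, ¬ r m a)
    (𝒰 : ℕ → Set (Set (Lp ρ r))) (ho : ∀ n, ∀ U ∈ 𝒰 n, IsOpen U)
    (hcov : ∀ n, ⋃₀ (𝒰 n) = Set.univ) :
    ∃ U : ℕ → Set (Lp ρ r), (∀ n, U n ∈ 𝒰 n) ∧ ⋃ n, U n = Set.univ := by
  let i : Lp ρ r → (Ω → M) := fun x => x.1
  have hi : Function.Injective i := Subtype.val_injective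
  obtain ⟨U, h1, h2⟩ := main_selection hc hu hρ m r hr.tot hr.irr hr.asymm
    (fun n => (fun U => i '' U) '' (𝒰 n)) (by
      intro n x hx
      have : (⟨x, hx⟩ : Lp ρ r) ∈ ⋃₀ (𝒰 n) := by rw [hcov n]; trivial
      obtain ⟨U, hU, hxU⟩ := this
      exact ⟨i '' U, ⟨U, hU, rfl⟩, ⟨⟨x, hx⟩, hxU, rfl⟩⟩) (by
      rintro n _ ⟨U, hU, rfl⟩ y hy hyU hyne
      obtain ⟨y', hy'U, rfl⟩ := hyU
      obtain ⟨σ, h1, h2⟩ := open_nb ρ hr m hm U (ho n U hU) y' hy'U hyne
      refine ⟨σ, h1, ?_⟩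
      intro z hz hzy hag
      exact ⟨⟨z, hz⟩, h2 ⟨z, hz⟩ hzy hag, rfl⟩)
  choose V hV using h1
  refine ⟨V, fun n => (hV n).1, ?_⟩
  rw [Set.eq_univ_iff_forall]
  intro x
  obtain ⟨n, hn⟩ := h2 x.1 x.2
  rw [← (hV n).2] at hn
  obtain ⟨x', hx', hxx⟩ := hn
  have : x' = x := hi hxx
  subst this
  exact Set.mem_iUnion.mpr ⟨n, hx'⟩

/-- `LL ρ` is uncountable -/
theorem not_countable_LL (hu : ¬ (Set.univ : Set Ω).Countable) {ρ : Ω → Ω → M} (m : M)
    (hm : ∀ δ ξ, ρ δ ξ ≠ m) : ¬ (LL ρ).Countable := by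
  intro hcount
  apply hu
  have hmaps : ∀ δ, cut m δ (ρ δ) ∈ LL ρ := by
    intro δ
    refine ⟨δ, cut_mem_CC m ?_⟩
    refine Set.finite_empty.subset ?_
    rintro ξ ⟨_, h⟩
    exact h rfl
  have hinj : Function.Injective (fun δ => cut m δ (ρ δ)) := by
    intro δ δ' h
    rcases lt_trichotomy δ δ' with h1 | h1 | h1
    · exfalso
      have h2 := congrFun h δ
      simp only at h2
      rw [cut_ge m _ (le_refl δ), cut_lt m _ h1] at h2
      exact hm _ _ h2.symm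
    · exact h1
    · exfalso
      have h2 := congrFun h δ'
      simp only at h2
      rw [cut_ge m _ (le_refl δ'), cut_lt m _ h1] at h2
      exact hm _ _ h2
  have h3 : ((fun δ => cut m δ (ρ δ)) '' Set.univ).Countable := by
    refine hcount.mono ?_
    rintro _ ⟨δ, _, rfl⟩
    exact hmaps δ
  exact Set.countable_of_injective_of_countable_image hinj.injOn h3

theorem lexLt_swap {r : M → M → Prop} {x y : Ω → M} :
    LexLt (fun a b => r b a) x y ↔ LexLt r y x := by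
  constructor
  · rintro ⟨ξ, h1, h2⟩
    exact ⟨ξ, fun η hη => (h1 η hη).symm, h2⟩
  · rintro ⟨ξ, h1, h2⟩
    exact ⟨ξ, fun η hη => (h1 η hη).symm, h2⟩

theorem STot.swap {r : M → M → Prop} (hr : STot r) : STot (fun a b => r b a) where
  tot a b h := (hr.tot a b h).symm
  irr a := hr.irr a
  asymm a b h := hr.asymm b a h
  trans a b c h1 h2 := hr.trans c b a h2 h1

/-- separation of the diagonal from every point of the product of the two one-sided spaces -/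
theorem separate (ρ : Ω → Ω → M) {r : M → M → Prop} (hr : STot r)
    (x : Lp ρ r) (y : Lp ρ (fun a b => r b a)) :
    ∃ (U : Set (Lp ρ r)) (V : Set (Lp ρ (fun a b => r b a))), IsOpen U ∧ IsOpen V ∧
      x ∈ U ∧ y ∈ V ∧ ∀ (z : Ω → M) (hz : z ∈ LL ρ), (⟨z, hz⟩ : Lp ρ r) ∈ U →
        (⟨z, hz⟩ : Lp ρ (fun a b => r b a)) ∈ V → z = x.1 := by
  have hr' := hr.swap
  by_cases hxy : x.1 = y.1
  · refine ⟨_, _, isOpen_Ici ρ r x, isOpen_Ici ρ _ y, LexLt.irrefl' hr _, LexLt.irrefl' hr' _, ?_⟩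
    intro z hz h1 h2
    change ¬ LexLt r z x.1 at h1
    change ¬ LexLt (fun a b => r b a) z y.1 at h2
    rw [lexLt_swap, ← hxy] at h2
    by_contra hne
    rcases LexLt.tot hr hne with h | h
    · exact h1 h
    · exact h2 h
  · rcases LexLt.tot hr hxy with h | h
    · by_cases hw : ∃ w : Ω → M, w ∈ LL ρ ∧ LexLt r x.1 w ∧ LexLt r w y.1
      · obtain ⟨w, hw, h1, h2⟩ := hw
        refine ⟨_, _, isOpen_Iio ρ r ⟨w, hw⟩, isOpen_Iio ρ (fun a b => r b a) ⟨w, hw⟩, h1, ?_, ?_⟩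
        · change LexLt (fun a b => r b a) y.1 w
          rw [lexLt_swap]
          exact h2
        · intro z hz h3 h4
          change LexLt r z w at h3
          change LexLt (fun a b => r b a) z w at h4
          rw [lexLt_swap] at h4
          exact absurd (h3.trans' hr h4) (LexLt.irrefl' hr _)
      · refine ⟨_, _, isOpen_Iio ρ r ⟨y.1, y.2⟩, isOpen_Iio ρ (fun a b => r b a) ⟨x.1, x.2⟩,
          h, ?_, ?_⟩
        · change LexLt (fun a b => r b a) y.1 x.1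
          rw [lexLt_swap]
          exact h
        · intro z hz h3 h4
          change LexLt r z y.1 at h3
          change LexLt (fun a b => r b a) z x.1 at h4
          rw [lexLt_swap] at h4
          exact absurd ⟨z, hz, h4, h3⟩ hw
    · refine ⟨_, _, isOpen_Ici ρ r x, isOpen_Ici ρ _ y, LexLt.irrefl' hr _,
        LexLt.irrefl' hr' _, ?_⟩
      intro z hz h1 h2
      change ¬ LexLt r z x.1 at h1
      change ¬ LexLt (fun a b => r b a) z y.1 at h2
      rw [lexLt_swap] at h2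
      by_contra hne
      rcases LexLt.tot hr hne with h3 | h3
      · exact h1 h3
      · exact h2 (h.trans' hr h3)

end Pool.Agent.Lib.MP_f9bcb0_lc
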