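import Pool.Agent.Lib.MP_f9bcb0_lc.Defs
import Pool.Agent.Lib.MP_f9bcb0_lc.Space

/-!
# A ZFC example of a Rothberger space that is not ω-Rothberger

The space is the topological sum of two copies of a set of functions on the first uncountable
ordinal, taken with the two opposite one-sided (Sorgenfrey type) topologies of the lexicographic
order.  The set is built from a coherent family of finite-to-one functions.
-/

set_option autoImplicit false

namespace Pool.Agent.Lib.MP_f9bcb0_lc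

universe u


/-- the topological sum of two Rothberger spaces is Rothberger -/
theorem rothberger_sum {X Y : Type u} [TopologicalSpace X] [TopologicalSpace Y]
    (hX : Rothberger X) (hY : Rothberger Y) : Rothberger (X ⊕ Y) := by
  intro 𝒰 h𝒰
  have h1 : ∀ n, IsOpenCover ((fun U : Set (X ⊕ Y) => Sum.inl ⁻¹' U) '' 𝒰 (2 * n)) := by
    intro n
    refine ⟨?_, ?_⟩
    · rintro _ ⟨U, hU, rfl⟩
      exact ((h𝒰 (2 * n)).1 U hU).preimage continuous_inl
    · rw [Set.eq_univ_iff_forall]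
      intro x
      have : (Sum.inl x : X ⊕ Y) ∈ ⋃₀ (𝒰 (2 * n)) := by rw [(h𝒰 (2 * n)).2]; trivial
      obtain ⟨U, hU, hx⟩ := this
      exact ⟨_, ⟨U, hU, rfl⟩, hx⟩
  have h2 : ∀ n, IsOpenCover ((fun U : Set (X ⊕ Y) => Sum.inr ⁻¹' U) '' 𝒰 (2 * n + 1)) := by
    intro n
    refine ⟨?_, ?_⟩
    · rintro _ ⟨U, hU, rfl⟩
      exact ((h𝒰 (2 * n + 1)).1 U hU).preimage continuous_inr
    · rw [Set.eq_univ_iff_forall]
      intro x
      have : (Sum.inr x : X ⊕ Y) ∈ ⋃₀ (𝒰 (2 * n + 1)) := by rw [(h𝒰 (2 * n + 1)).2]; trivial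
      obtain ⟨U, hU, hx⟩ := this
      exact ⟨_, ⟨U, hU, rfl⟩, hx⟩
  obtain ⟨U, hU, hUc⟩ := hX _ h1
  obtain ⟨V, hV, hVc⟩ := hY _ h2
  choose U' hU' using hU
  choose V' hV' using hV
  let W : ℕ → Set (X ⊕ Y) := fun n => if n % 2 = 0 then U' (n / 2) else V' (n / 2)
  have hW0 : ∀ k, W (2 * k) = U' k := by
    intro k
    have e1 : (2 * k) % 2 = 0 := by omega
    have e2 : (2 * k) / 2 = k := by omega
    simp only [W, e1, if_true, e2]
  have hW1 : ∀ k, W (2 * k + 1) = V' k := by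
    intro k
    have e1 : ¬ (2 * k + 1) % 2 = 0 := by omega
    have e2 : (2 * k + 1) / 2 = k := by omega
    simp only [W, e1, if_false, e2]
  have hW : ∀ n, W n ∈ 𝒰 n := by
    intro n
    rcases Nat.even_or_odd' n with ⟨k, rfl | rfl⟩
    · rw [hW0]; exact (hU' k).1
    · rw [hW1]; exact (hV' k).1
  refine ⟨W, hW, ?_, ?_⟩
  · rintro _ ⟨n, rfl⟩
    exact (h𝒰 n).1 _ (hW n)
  · rw [Set.eq_univ_iff_forall]
    rintro (x | y)
    · have : x ∈ ⋃₀ (Set.range U) := by rw [hUc.2]; trivial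
      obtain ⟨_, ⟨k, rfl⟩, hk⟩ := this
      refine ⟨W (2 * k), ⟨2 * k, rfl⟩, ?_⟩
      rw [hW0]
      rw [← (hU' k).2] at hk
      exact hk
    · have : y ∈ ⋃₀ (Set.range V) := by rw [hVc.2]; trivial
      obtain ⟨_, ⟨k, rfl⟩, hk⟩ := this
      refine ⟨W (2 * k + 1), ⟨2 * k + 1, rfl⟩, ?_⟩
      rw [hW1]
      rw [← (hV' k).2] at hk
      exact hk

/-- clopen bases of a sum -/
theorem basis_clopen_sum {X Y : Type u} [TopologicalSpace X] [TopologicalSpace Y]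
    (hX : TopologicalSpace.IsTopologicalBasis {s : Set X | IsClopen s})
    (hY : TopologicalSpace.IsTopologicalBasis {s : Set Y | IsClopen s}) :
    TopologicalSpace.IsTopologicalBasis {s : Set (X ⊕ Y) | IsClopen s} := by
  refine TopologicalSpace.isTopologicalBasis_of_isOpen_of_nhds (fun u hu => hu.isOpen) ?_
  rintro (a | b) u hau hu
  · obtain ⟨v, hv, hav, hvu⟩ := hX.exists_subset_of_mem_open (show a ∈ Sum.inl ⁻¹' u from hau)
      (hu.preimage continuous_inl)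
    refine ⟨Sum.inl '' v, ⟨?_, ?_⟩, ⟨a, hav, rfl⟩, ?_⟩
    · exact Topology.IsClosedEmbedding.inl.isClosedMap v hv.1
    · exact isOpenMap_inl v hv.2
    · rintro _ ⟨z, hz, rfl⟩
      exact hvu hz
  · obtain ⟨v, hv, hav, hvu⟩ := hY.exists_subset_of_mem_open (show b ∈ Sum.inr ⁻¹' u from hau)
      (hu.preimage continuous_inr)
    refine ⟨Sum.inr '' v, ⟨?_, ?_⟩, ⟨b, hav, rfl⟩, ?_⟩
    · exact Topology.IsClosedEmbedding.inr.isClosedMap v hv.1
    · exact isOpenMap_inr v hv.2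
    · rintro _ ⟨z, hz, rfl⟩
      exact hvu hz

/-- the sum of the two opposite one-sided spaces is not ω-Rothberger -/
theorem not_omega {Ω : Type u} [LinearOrder Ω] [WellFoundedLT Ω] {M : Type}
    {ρ : Ω → Ω → M} (hLL : ¬ (LL ρ).Countable) {r : M → M → Prop} (hr : STot r) :
    ¬ OmegaRothberger (Lp ρ r ⊕ Lp ρ (fun a b => r b a)) := by
  classical
  intro hO
  choose U V hUo hVo hxU hyV hUV using separate ρ hr
  -- the ω-cover
  let 𝒱 : Set (Set (Lp ρ r ⊕ Lp ρ (fun a b => r b a))) :=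
    {W | IsOpen W ∧ {z : Ω → M | ∃ hz : z ∈ LL ρ,
      (Sum.inl ⟨z, hz⟩ : Lp ρ r ⊕ Lp ρ (fun a b => r b a)) ∈ W ∧
      (Sum.inr ⟨z, hz⟩ : Lp ρ r ⊕ Lp ρ (fun a b => r b a)) ∈ W}.Finite}
  have hfin : ∀ F : Set (Lp ρ r ⊕ Lp ρ (fun a b => r b a)), F.Finite → ∃ W ∈ 𝒱, F ⊆ W := by
    intro F hF
    set F1 : Set (Lp ρ r) := Sum.inl ⁻¹' F with hF1
    set F2 : Set (Lp ρ (fun a b => r b a)) := Sum.inr ⁻¹' F with hF2
    have hF1f : F1.Finite := hF.preimage Sum.inl_injective.injOn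
    have hF2f : F2.Finite := hF.preimage Sum.inr_injective.injOn
    set A : Set (Lp ρ r) := ⋃ x ∈ F1, ⋂ y ∈ F2, U x y with hA
    set B : Set (Lp ρ (fun a b => r b a)) := ⋃ y ∈ F2, ⋂ x ∈ F1, V x y with hB
    have hAo : IsOpen A := isOpen_biUnion (fun x _ => hF2f.isOpen_biInter (fun y _ => hUo x y))
    have hBo : IsOpen B := isOpen_biUnion (fun y _ => hF1f.isOpen_biInter (fun x _ => hVo x y))
    refine ⟨Sum.inl '' A ∪ Sum.inr '' B, ⟨?_, ?_⟩, ?_⟩
    · exact (isOpenMap_inl A hAo).union (isOpenMap_inr B hBo)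
    · refine (hF1f.image (fun x => x.1)).subset ?_
      rintro z ⟨hz, h1, h2⟩
      have h1' : (⟨z, hz⟩ : Lp ρ r) ∈ A := by
        rcases h1 with ⟨a, ha, hae⟩ | ⟨b, _, hbe⟩
        · rw [← Sum.inl_injective hae]
          exact ha
        · exact absurd hbe (by simp)
      have h2' : (⟨z, hz⟩ : Lp ρ (fun a b => r b a)) ∈ B := by
        rcases h2 with ⟨a, _, hae⟩ | ⟨b, hb, hbe⟩
        · exact absurd hae (by simp)
        · rw [← Sum.inr_injective hbe]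
          exact hb
      obtain ⟨x, hx, h3⟩ := Set.mem_iUnion₂.mp h1'
      obtain ⟨y, hy, h4⟩ := Set.mem_iUnion₂.mp h2'
      exact ⟨x, hx, (hUV x y z hz (Set.mem_iInter₂.mp h3 y hy) (Set.mem_iInter₂.mp h4 x hx)).symm⟩
    · rintro (x | y) hxy
      · left
        exact ⟨x, Set.mem_iUnion₂.mpr ⟨x, hxy, Set.mem_iInter₂.mpr (fun y _ => hxU x y)⟩, rfl⟩
      · right
        exact ⟨y, Set.mem_iUnion₂.mpr ⟨y, hxy, Set.mem_iInter₂.mpr (fun x _ => hyV x y)⟩, rfl⟩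
  have hcover : IsOmegaCover 𝒱 := by
    refine ⟨⟨fun W hW => hW.1, ?_⟩, ?_, hfin⟩
    · rw [Set.eq_univ_iff_forall]
      intro x
      obtain ⟨W, hW, hx⟩ := hfin {x} (Set.finite_singleton x)
      exact ⟨W, hW, hx rfl⟩
    · rintro ⟨_, h⟩
      apply hLL
      refine h.countable.mono ?_
      intro z hz
      exact ⟨hz, trivial, trivial⟩
  obtain ⟨W, hW, hWc⟩ := hO (fun _ => 𝒱) (fun _ => hcover)
  apply hLL
  have hcount : (⋃ n, {z : Ω → M | ∃ hz : z ∈ LL ρ,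
      (Sum.inl ⟨z, hz⟩ : Lp ρ r ⊕ Lp ρ (fun a b => r b a)) ∈ W n ∧
      (Sum.inr ⟨z, hz⟩ : Lp ρ r ⊕ Lp ρ (fun a b => r b a)) ∈ W n}).Countable :=
    Set.countable_iUnion (fun n => (hW n).2.countable)
  refine hcount.mono ?_
  intro z hz
  obtain ⟨_, ⟨n, rfl⟩, hn⟩ := hWc.2.2
    {(Sum.inl ⟨z, hz⟩ : Lp ρ r ⊕ Lp ρ (fun a b => r b a)), Sum.inr ⟨z, hz⟩} (by simp)
  refine Set.mem_iUnion.mpr ⟨n, hz, hn ?_, hn ?_⟩
  · simp
  · simp

theorem exists_omega_one : ∃ (Ω : Type u) (_ : LinearOrder Ω), WellFoundedLT Ω ∧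
    (∀ a : Ω, (Set.Iio a).Countable) ∧ ¬ (Set.univ : Set Ω).Countable := by
  refine ⟨(Cardinal.aleph 1 : Cardinal.{u}).ord.ToType, inferInstance, inferInstance, ?_, ?_⟩
  · intro a
    rw [← Cardinal.le_aleph0_iff_set_countable]
    have h : Cardinal.mk (Set.Iio a) < Cardinal.mk (Cardinal.aleph 1 : Cardinal.{u}).ord.ToType :=
      Cardinal.mk_Iio_lt a (by simp)
    rw [Cardinal.mk_toType, Cardinal.card_ord] at h
    have h2 : Cardinal.mk (Set.Iio a) < Order.succ Cardinal.aleph0 :=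
      h.trans_eq Cardinal.succ_aleph0.symm
    exact Order.lt_succ_iff.mp h2
  · intro h
    rw [← Cardinal.le_aleph0_iff_set_countable, Cardinal.mk_univ, Cardinal.mk_toType,
      Cardinal.card_ord] at h
    exact absurd h (not_le.mpr Cardinal.aleph0_lt_aleph_one)

/-- **There is (in ZFC) a zero-dimensional Tychonoff space which is Rothberger but not
ω-Rothberger.** -/
theorem main_result : ∃ (X : Type u) (_ : TopologicalSpace X),
    T35Space X ∧ TopologicalSpace.IsTopologicalBasis {s : Set X | IsClopen s} ∧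
    Rothberger X ∧ ¬ OmegaRothberger X := by
  obtain ⟨Ω, hΩ, hwf, hc, hu⟩ := exists_omega_one.{u}
  obtain ⟨ρ₀, h1, h2⟩ := exists_coherent (Ω := Ω) hc
  let ρ : Ω → Ω → ℕ∞ := fun β α => (ρ₀ β α : ℕ∞)
  have hρ : Coh ρ := by
    refine ⟨?_, ?_⟩
    · intro δ c
      induction c using ENat.recTopCoe with
      | top =>
        refine Set.finite_empty.subset ?_
        rintro ξ ⟨_, h⟩
        exact absurd h (by simp [ρ])
      | coe n =>
        refine (h1 δ n).subset ?_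
        rintro ξ ⟨h3, h4⟩
        have h5 : ((ρ₀ δ ξ : ℕ) : ℕ∞) = (n : ℕ∞) := h4
        exact ⟨h3, by exact_mod_cast h5⟩
    · intro β γ hβγ
      refine (h2 β γ hβγ).subset ?_
      rintro α ⟨h3, h4⟩
      exact ⟨h3, fun h => h4 (by simp only [ρ, h])⟩
  have hr : STot (fun a b : ℕ∞ => a < b) :=
    ⟨fun a b h => lt_or_gt_of_ne h, fun a => lt_irrefl a, fun a b h => not_lt.mpr h.le,
      fun a b c => lt_trans⟩
  have hLL : ¬ (LL ρ).Countable := not_countable_LL hu (⊤ : ℕ∞) (fun δ ξ => by simp [ρ])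
  have hR1 : Rothberger (Lp ρ (fun a b : ℕ∞ => a < b)) := by
    intro 𝒰 h𝒰
    obtain ⟨U, hU1, hU2⟩ := rothberger_Lp hc hu hρ (⊤ : ℕ∞) hr (fun a => not_top_lt) 𝒰
      (fun n => (h𝒰 n).1) (fun n => (h𝒰 n).2)
    refine ⟨U, hU1, ?_, ?_⟩
    · rintro _ ⟨n, rfl⟩
      exact (h𝒰 n).1 _ (hU1 n)
    · rw [Set.sUnion_range]
      exact hU2
  have hR2 : Rothberger (Lp ρ (fun a b : ℕ∞ => b < a)) := by
    intro 𝒰 h𝒰
    obtain ⟨U, hU1, hU2⟩ := rothberger_Lp hc hu hρ (0 : ℕ∞) hr.swap (fun a => by simp) 𝒰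
      (fun n => (h𝒰 n).1) (fun n => (h𝒰 n).2)
    refine ⟨U, hU1, ?_, ?_⟩
    · rintro _ ⟨n, rfl⟩
      exact (h𝒰 n).1 _ (hU1 n)
    · rw [Set.sUnion_range]
      exact hU2
  have hb := basis_clopen_sum (basis_clopen ρ (fun a b : ℕ∞ => a < b))
    (basis_clopen ρ (fun a b : ℕ∞ => b < a))
  have ht1 : T2Space (Lp ρ (fun a b : ℕ∞ => a < b)) := t2_Lp ρ hr
  have ht2 : T2Space (Lp ρ (fun a b : ℕ∞ => b < a)) := t2_Lp ρ hr.swap
  refine ⟨Lp ρ (fun a b : ℕ∞ => a < b) ⊕ Lp ρ (fun a b : ℕ∞ => b < a), inferInstance, ?_, hb,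
    rothberger_sum hR1 hR2, not_omega hLL hr⟩
  have := CompletelyRegularSpace.of_isTopologicalBasis_clopens hb
  exact {}

end Pool.Agent.Lib.MP_f9bcb0_lc
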