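import Pool.Agent.Lib.MP_f9bcb0_lc.Rho

/-!
The main covering lemma.
-/

set_option autoImplicit false
set_option linter.unusedSectionVars false

namespace Pool.Agent.Lib.MP_f9bcb0_lc

universe u

variable {Ω : Type u} [LinearOrder Ω] [WellFoundedLT Ω] {M : Type}

/-- `x` and `y` agree below `δ` -/
def Agree (δ : Ω) (x y : Ω → M) : Prop := ∀ ξ, ξ < δ → x ξ = y ξ

/-- `x` restricted to `δ` is a finite modification of `ρ δ` -/
def Good (ρ : Ω → Ω → M) (δ : Ω) (x : Ω → M) : Prop := {ξ | ξ < δ ∧ x ξ ≠ ρ δ ξ}.Finite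

/-- functions that are constant from some `ε ≤ δ` on and coherent before `ε` -/
def CC (ρ : Ω → Ω → M) (δ : Ω) : Set (Ω → M) :=
  {x | ∃ ε, ε ≤ δ ∧ Good ρ ε x ∧ ∃ c, ∀ ξ, ε ≤ ξ → x ξ = c}

/-- the underlying set of points -/
def LL (ρ : Ω → Ω → M) : Set (Ω → M) := {x | ∃ δ, x ∈ CC ρ δ}

/-- strict lexicographic order with respect to `r` -/
def LexLt (r : M → M → Prop) (x y : Ω → M) : Prop := ∃ ξ, (∀ η, η < ξ → x η = y η) ∧ r (x ξ) (y ξ)

/-- truncation -/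
noncomputable def cut (m : M) (δ : Ω) (x : Ω → M) : Ω → M := by
  classical
  exact fun ξ => if ξ < δ then x ξ else m

theorem cut_lt (m : M) {δ ξ : Ω} (x : Ω → M) (h : ξ < δ) : cut m δ x ξ = x ξ := by
  simp [cut, h]

theorem cut_ge (m : M) {δ ξ : Ω} (x : Ω → M) (h : δ ≤ ξ) : cut m δ x ξ = m := by
  simp [cut, not_lt.mpr h]

theorem agree_cut (m : M) (δ : Ω) (x : Ω → M) : Agree δ (cut m δ x) x := fun _ h => cut_lt m x h

theorem Agree.symm {δ : Ω} {x y : Ω → M} (h : Agree δ x y) : Agree δ y x := fun ξ hξ => (h ξ hξ).symm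

theorem Agree.trans {δ : Ω} {x y z : Ω → M} (h : Agree δ x y) (h' : Agree δ y z) : Agree δ x z :=
  fun ξ hξ => (h ξ hξ).trans (h' ξ hξ)

theorem Agree.mono {δ δ' : Ω} (hδ : δ ≤ δ') {x y : Ω → M} (h : Agree δ' x y) : Agree δ x y :=
  fun ξ hξ => h ξ (lt_of_lt_of_le hξ hδ)

theorem Good.congr {ρ : Ω → Ω → M} {δ : Ω} {x y : Ω → M} (h : Agree δ x y) (hx : Good ρ δ x) :
    Good ρ δ y := by
  refine hx.subset ?_
  rintro ξ ⟨h1, h2⟩
  exact ⟨h1, by rw [h ξ h1]; exact h2⟩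

theorem CC_mono (ρ : Ω → Ω → M) {δ δ' : Ω} (h : δ ≤ δ') : CC ρ δ ⊆ CC ρ δ' := by
  rintro x ⟨ε, h1, h2⟩
  exact ⟨ε, le_trans h1 h, h2⟩

theorem cut_mem_CC {ρ : Ω → Ω → M} (m : M) {δ : Ω} {x : Ω → M} (h : Good ρ δ x) :
    cut m δ x ∈ CC ρ δ :=
  ⟨δ, le_refl δ, h.congr (agree_cut m δ x).symm, m, fun _ hξ => cut_ge m x hξ⟩

/-- the hypotheses on the coherent family -/
structure Coh (ρ : Ω → Ω → M) : Prop where
  fin : ∀ δ c, {ξ | ξ < δ ∧ ρ δ ξ = c}.Finite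
  coh : ∀ β γ, β ≤ γ → {α | α < β ∧ ρ β α ≠ ρ γ α}.Finite

theorem Good.mono {ρ : Ω → Ω → M} (hρ : Coh ρ) {δ δ' : Ω} (hδ : δ ≤ δ') {x : Ω → M}
    (h : Good ρ δ' x) : Good ρ δ x := by
  refine (h.union (hρ.coh δ δ' hδ)).subset ?_
  rintro ξ ⟨h1, h2⟩
  by_cases h3 : x ξ = ρ δ' ξ
  · right
    refine ⟨h1, ?_⟩
    rw [← h3]
    exact fun h => h2 h.symm
  · left
    exact ⟨lt_of_lt_of_le h1 hδ, h3⟩

theorem LL_or {ρ : Ω → Ω → M} (hρ : Coh ρ) {x : Ω → M} (hx : x ∈ LL ρ) (δ : Ω) :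
    x ∈ CC ρ δ ∨ Good ρ δ x := by
  obtain ⟨δ₁, ε, _, h2, h3⟩ := hx
  rcases le_total ε δ with h | h
  · left
    exact ⟨ε, h, h2, h3⟩
  · right
    exact h2.mono hρ h

/-- a function which is coherent below `δ` takes every value only finitely often below `δ` -/
theorem Good.fin {ρ : Ω → Ω → M} (hρ : Coh ρ) {δ : Ω} {x : Ω → M} (h : Good ρ δ x) (c : M) :
    {ξ | ξ < δ ∧ x ξ = c}.Finite := by
  refine (h.union (hρ.fin δ c)).subset ?_
  rintro ξ ⟨h1, h2⟩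
  by_cases h3 : x ξ = ρ δ ξ
  · right
    exact ⟨h1, h3 ▸ h2⟩
  · left
    exact ⟨h1, h3⟩

theorem exists_rep {ρ : Ω → Ω → M} (hρ : Coh ρ) (m : M) {x : Ω → M} (hx : x ∈ LL ρ) (δ : Ω) :
    ∃ z ∈ CC ρ δ, Agree δ z x := by
  rcases LL_or hρ hx δ with h | h
  · exact ⟨x, h, fun _ _ => rfl⟩
  · exact ⟨cut m δ x, cut_mem_CC m h, agree_cut m δ x⟩

/-- bounds of countable sets -/
theorem exists_bound (hc : ∀ a : Ω, (Set.Iio a).Countable) (hu : ¬ (Set.univ : Set Ω).Countable)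
    {S : Set Ω} (hS : S.Countable) : ∃ b, ∀ a ∈ S, a < b := by
  by_contra hcon
  push Not at hcon
  apply hu
  have : (⋃ a ∈ S, Set.Iic a).Countable := by
    refine hS.biUnion ?_
    intro a _
    rw [← Set.Iio_insert]
    exact (hc a).insert a
  refine this.mono ?_
  intro b _
  obtain ⟨a, ha, hab⟩ := hcon b
  simp only [Set.mem_iUnion]
  exact ⟨a, ha, hab⟩

theorem exists_gt' (hc : ∀ a : Ω, (Set.Iio a).Countable) (hu : ¬ (Set.univ : Set Ω).Countable)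
    (a : Ω) : ∃ b, a < b := by
  obtain ⟨b, hb⟩ := exists_bound hc hu (Set.countable_singleton a)
  exact ⟨b, hb a rfl⟩

theorem countable_good [Countable M] (hc : ∀ a : Ω, (Set.Iio a).Countable) (ρ : Ω → Ω → M)
    (ε : Ω) (c : M) : {x : Ω → M | Good ρ ε x ∧ ∀ ξ, ε ≤ ξ → x ξ = c}.Countable := by
  classical
  have hcε : Countable (Set.Iio ε) := (hc ε).to_subtype
  -- encode by the finite graph of the modification
  let enc : (Ω → M) → Set (Set.Iio ε × M) := fun x => {p | x p.1 = p.2 ∧ x p.1 ≠ ρ ε p.1}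
  have hfin : ∀ x, Good ρ ε x → (enc x).Finite := by
    intro x hx
    have h1 : (Subtype.val ⁻¹' {ξ | ξ < ε ∧ x ξ ≠ ρ ε ξ} : Set (Set.Iio ε)).Finite :=
      hx.preimage Subtype.val_injective.injOn
    refine (h1.image (fun p => ((p, x p) : Set.Iio ε × M))).subset ?_
    rintro ⟨p, q⟩ ⟨h2, h3⟩
    exact ⟨p, ⟨p.2, h3⟩, Prod.ext rfl h2⟩
  have hinj : Set.InjOn enc {x : Ω → M | Good ρ ε x ∧ ∀ ξ, ε ≤ ξ → x ξ = c} := by
    rintro x ⟨_, hx2⟩ y ⟨_, hy2⟩ hxy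
    funext ξ
    rcases lt_or_ge ξ ε with h | h
    · by_cases h1 : x ξ = ρ ε ξ
      · by_cases h2 : y ξ = ρ ε ξ
        · rw [h1, h2]
        · have : ((⟨ξ, h⟩, y ξ) : Set.Iio ε × M) ∈ enc y := ⟨rfl, h2⟩
          rw [← hxy] at this
          exact this.1
      · have : ((⟨ξ, h⟩, x ξ) : Set.Iio ε × M) ∈ enc x := ⟨rfl, h1⟩
        rw [hxy] at this
        exact this.1.symm
    · rw [hx2 ξ h, hy2 ξ h]
  have himg : (enc '' {x : Ω → M | Good ρ ε x ∧ ∀ ξ, ε ≤ ξ → x ξ = c}).Countable := by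
    refine (Set.countable_ofPred_finite_subset (s := (Set.univ : Set (Set.Iio ε × M)))
      (Set.countable_univ)).mono ?_
    rintro _ ⟨x, hx, rfl⟩
    exact ⟨hfin x hx.1, Set.subset_univ _⟩
  exact Set.countable_of_injective_of_countable_image hinj himg

theorem countable_CC [Countable M] (hc : ∀ a : Ω, (Set.Iio a).Countable) (ρ : Ω → Ω → M)
    (δ : Ω) : (CC ρ δ).Countable := by
  have h1 : (Set.Iic δ).Countable := by
    rw [← Set.Iio_insert]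
    exact (hc δ).insert δ
  have : (⋃ ε ∈ Set.Iic δ, ⋃ c : M,
      {x : Ω → M | Good ρ ε x ∧ ∀ ξ, ε ≤ ξ → x ξ = c}).Countable := by
    refine h1.biUnion ?_
    intro ε _
    exact Set.countable_iUnion (fun c => countable_good hc ρ ε c)
  refine this.mono ?_
  rintro x ⟨ε, h2, h3, c, h4⟩
  simp only [Set.mem_iUnion]
  exact ⟨ε, h2, c, h3, h4⟩

/-- there is no uncountable coherent branch -/
theorem no_branch [Countable M] (hc : ∀ a : Ω, (Set.Iio a).Countable)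
    (hu : ¬ (Set.univ : Set Ω).Countable) {ρ : Ω → Ω → M} (hρ : Coh ρ) (B : Ω → M) :
    ∃ δ, ¬ Good ρ δ B := by
  by_contra hcon
  push Not at hcon
  -- some value is taken infinitely often
  have h1 : ∃ c, (B ⁻¹' {c}).Infinite := by
    by_contra h
    push Not at h
    apply hu
    have : (⋃ c, B ⁻¹' {c}).Countable := Set.countable_iUnion (fun c => (h c).countable)
    refine this.mono ?_
    intro ξ _
    simp
  obtain ⟨c, hcinf⟩ := h1
  obtain ⟨S, hS1, hS2, hS3⟩ : ∃ S : Set Ω, S ⊆ B ⁻¹' {c} ∧ S.Infinite ∧ S.Countable := by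
    have := hcinf.to_subtype
    let f := Infinite.natEmbedding (B ⁻¹' {c})
    refine ⟨Set.range (fun n => (f n : Ω)), ?_, ?_, Set.countable_range _⟩
    · rintro _ ⟨n, rfl⟩
      exact (f n).2
    · apply Set.infinite_range_of_injective
      intro a b hab
      exact f.injective (Subtype.ext hab)
  obtain ⟨δ, hδ⟩ := exists_bound hc hu hS3
  apply hS2
  refine ((hcon δ).fin hρ c).subset ?_
  intro ξ hξ
  exact ⟨hδ ξ hξ, hS1 hξ⟩

/-- every set of points has a countable coinitial subset -/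
theorem coinitial [Countable M] (hc : ∀ a : Ω, (Set.Iio a).Countable)
    (hu : ¬ (Set.univ : Set Ω).Countable) {ρ : Ω → Ω → M} (hρ : Coh ρ) (m : M)
    (r : M → M → Prop) (hr : ∀ a b, a ≠ b → r a b ∨ r b a) (hirr : ∀ a, ¬ r a a)
    (hasymm : ∀ a b, r a b → ¬ r b a)
    (P : Set (Ω → M)) (hP : P ⊆ LL ρ) :
    ∃ D, D ⊆ P ∧ D.Countable ∧ ∀ y ∈ P, ∃ d ∈ D, ¬ LexLt r y d := by
  classical
  by_contra hcon
  push Not at hcon
  -- representatives
  have hrep : ∀ δ : Ω, ∃ D, D ⊆ P ∧ D.Countable ∧ P ∩ CC ρ δ ⊆ D ∧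
      ∀ y ∈ P, ∃ d ∈ D, Agree δ d y := by
    intro δ
    let g : (Ω → M) → (Ω → M) := fun z =>
      if h : ∃ d, d ∈ P ∧ Agree δ d z then h.choose else z
    let E : Set (Ω → M) := {z | z ∈ CC ρ δ ∧ ∃ d, d ∈ P ∧ Agree δ d z}
    refine ⟨(P ∩ CC ρ δ) ∪ g '' E, ?_, ?_, Set.subset_union_left, ?_⟩
    · rintro x (hx | ⟨z, hz, rfl⟩)
      · exact hx.1
      · have : g z = hz.2.choose := by simp only [g, hz.2, dite_true]
        rw [this]
        exact hz.2.choose_spec.1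
    · refine Set.Countable.union ((countable_CC hc ρ δ).mono Set.inter_subset_right) ?_
      exact ((countable_CC hc ρ δ).mono (fun z hz => hz.1)).image g
    · intro y hy
      obtain ⟨z, hz1, hz2⟩ := exists_rep hρ m (hP hy) δ
      have hex : ∃ d, d ∈ P ∧ Agree δ d z := ⟨y, hy, hz2.symm⟩
      refine ⟨g z, Or.inr ⟨z, ⟨hz1, hex⟩, rfl⟩, ?_⟩
      have : g z = hex.choose := by simp only [g, hex, dite_true]
      rw [this]
      exact hex.choose_spec.2.trans hz2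
  choose D hD1 hD2 hD3 hD4 using hrep
  have hy : ∀ δ, ∃ y ∈ P, ∀ d ∈ D δ, LexLt r y d := fun δ => hcon (D δ) (hD1 δ) (hD2 δ)
  choose y hyP hylt using hy
  have hgood : ∀ δ, Good ρ δ (y δ) := by
    intro δ
    rcases LL_or hρ (hP (hyP δ)) δ with h | h
    · exfalso
      have h1 : y δ ∈ D δ := hD3 δ ⟨hyP δ, h⟩
      obtain ⟨ξ, _, h2⟩ := hylt δ _ h1
      exact hirr _ h2
    · exact h
  -- the key point: no strict inequality below both indices
  have hkey : ∀ δ δ' ξ, ξ < δ → ξ < δ' → (∀ η, η < ξ → y δ η = y δ' η) →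
      ¬ r (y δ ξ) (y δ' ξ) := by
    intro δ δ' ξ h1 h2 h3 h4
    obtain ⟨d, hd, hda⟩ := hD4 δ' (y δ) (hyP δ)
    obtain ⟨ζ, h5, h6⟩ := hylt δ' d hd
    rcases lt_trichotomy ζ ξ with h | h | h
    · rw [hda ζ (lt_trans h h2), h3 ζ h] at h6
      exact hirr _ h6
    · subst h
      rw [hda ζ h2] at h6
      exact hasymm _ _ h4 h6
    · have := h5 ξ h
      rw [hda ξ h2] at this
      rw [this] at h4
      exact hirr _ h4
  have hagree : ∀ ξ δ δ', ξ < δ → ξ < δ' → y δ ξ = y δ' ξ := by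
    intro ξ
    induction ξ using WellFoundedLT.induction with
    | ind ξ ih =>
      intro δ δ' h1 h2
      by_contra hne
      have h3 : ∀ η, η < ξ → y δ η = y δ' η := fun η hη =>
        ih η hη δ δ' (lt_trans hη h1) (lt_trans hη h2)
      rcases hr _ _ hne with h | h
      · exact hkey δ δ' ξ h1 h2 h3 h
      · exact hkey δ' δ ξ h2 h1 (fun η hη => (h3 η hη).symm) h
  choose sc hsc using exists_gt' hc hu
  obtain ⟨δ, hδ⟩ := no_branch hc hu hρ (fun ξ => y (sc ξ) ξ)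
  apply hδ
  refine (hgood δ).congr ?_
  intro ξ hξ
  exact hagree ξ δ (sc ξ) hξ (hsc ξ)

/-- The main selection lemma. -/
theorem main_selection [Countable M] (hc : ∀ a : Ω, (Set.Iio a).Countable)
    (hu : ¬ (Set.univ : Set Ω).Countable) {ρ : Ω → Ω → M} (hρ : Coh ρ) (m : M)
    (r : M → M → Prop) (hr : ∀ a b, a ≠ b → r a b ∨ r b a) (hirr : ∀ a, ¬ r a a)
    (hasymm : ∀ a b, r a b → ¬ r b a)
    (𝒰 : ℕ → Set (Set (Ω → M)))
    (hcov : ∀ n, ∀ x ∈ LL ρ, ∃ U ∈ 𝒰 n, x ∈ U)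
    (hnb : ∀ n, ∀ U ∈ 𝒰 n, ∀ y ∈ LL ρ, y ∈ U → (∃ ξ, y ξ ≠ m) →
      ∃ σ, y σ ≠ m ∧ ∀ z ∈ LL ρ, ¬ LexLt r z y → (∀ ξ, ξ ≤ σ → z ξ = y ξ) → z ∈ U) :
    ∃ U : ℕ → Set (Ω → M), (∀ n, U n ∈ 𝒰 n) ∧ ∀ x ∈ LL ρ, ∃ n, x ∈ U n := by
  classical
  choose sc hsc using exists_gt' hc hu
  -- neighbourhoods
  have hN : ∀ n x, ∃ U, x ∈ LL ρ → U ∈ 𝒰 n ∧ x ∈ U := by
    intro n x
    by_cases h : x ∈ LL ρ
    · obtain ⟨U, h1, h2⟩ := hcov n x h
      exact ⟨U, fun _ => ⟨h1, h2⟩⟩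
    · exact ⟨∅, fun h' => absurd h' h⟩
  choose N hN using hN
  have hσ : ∀ n y, ∃ σ, y ∈ LL ρ → (∃ ξ, y ξ ≠ m) → y σ ≠ m ∧
      ∀ z ∈ LL ρ, ¬ LexLt r z y → (∀ ξ, ξ ≤ σ → z ξ = y ξ) → z ∈ N n y := by
    intro n y
    by_cases h : y ∈ LL ρ ∧ (∃ ξ, y ξ ≠ m)
    · obtain ⟨σ, h1⟩ := hnb n (N n y) (hN n y h.1).1 y h.1 (hN n y h.1).2 h.2
      exact ⟨σ, fun _ _ => h1⟩
    · obtain ⟨b, _⟩ := exists_bound hc hu (S := ∅) Set.countable_empty
      exact ⟨b, fun h1 h2 => absurd ⟨h1, h2⟩ h⟩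
  choose σ hσ using hσ
  let P : ℕ → Ω → (Ω → M) → Set (Ω → M) := fun n s t =>
    {y | y ∈ LL ρ ∧ (∃ ξ, y ξ ≠ m) ∧ σ n y = s ∧ ∀ ξ, ξ ≤ s → y ξ = t ξ}
  have hD : ∀ n s t, ∃ D, D ⊆ P n s t ∧ D.Countable ∧ ∀ y ∈ P n s t, ∃ d ∈ D, ¬ LexLt r y d :=
    fun n s t => coinitial hc hu hρ m r hr hirr hasymm (P n s t) (fun y hy => hy.1)
  choose D hD1 hD2 hD3 using hD
  -- heights
  have hh : ∀ y, ∃ δ, y ∈ LL ρ → y ∈ CC ρ δ := by
    intro y
    by_cases h : y ∈ LL ρ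
    · obtain ⟨δ, hδ⟩ := h
      exact ⟨δ, fun _ => hδ⟩
    · obtain ⟨b, _⟩ := exists_bound hc hu (S := ∅) Set.countable_empty
      exact ⟨b, fun h' => absurd h' h⟩
  choose h hh using hh
  have hg : ∀ s, ∃ b, ∀ n, ∀ t ∈ CC ρ (sc s), ∀ d ∈ D n s t, h d < b := by
    intro s
    have hS : (⋃ n : ℕ, ⋃ t ∈ CC ρ (sc s), h '' (D n s t)).Countable := by
      refine Set.countable_iUnion (fun n => ?_)
      refine (countable_CC hc ρ (sc s)).biUnion ?_
      intro t _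
      exact (hD2 n s t).image h
    obtain ⟨b, hb⟩ := exists_bound hc hu hS
    refine ⟨b, fun n t ht d hd => hb _ ?_⟩
    simp only [Set.mem_iUnion]
    exact ⟨n, t, ht, d, hd, rfl⟩
  choose g hg using hg
  -- closing off
  have hnext : ∀ a : Ω, ∃ b, a < b ∧ ∀ s, s ≤ a → g s < b := by
    intro a
    have hS : (insert a (g '' (Set.Iic a))).Countable := by
      refine Set.Countable.insert a (Set.Countable.image ?_ g)
      rw [← Set.Iio_insert]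
      exact (hc a).insert a
    obtain ⟨b, hb⟩ := exists_bound hc hu hS
    exact ⟨b, hb a (Set.mem_insert _ _), fun s hs =>
      hb _ (Set.mem_insert_of_mem _ ⟨s, hs, rfl⟩)⟩
  choose nx hnx1 hnx2 using hnext
  obtain ⟨a₀, _⟩ := exists_bound hc hu (S := ∅) Set.countable_empty
  let dd : ℕ → Ω := fun k => nx^[k] a₀
  have hdd : ∀ k, dd (k + 1) = nx (dd k) := fun k => Function.iterate_succ_apply' nx k a₀
  have hddmono : StrictMono dd := strictMono_nat_of_lt_succ (fun k => by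
    rw [hdd k]; exact hnx1 _)
  have hne : {β : Ω | ∀ k, dd k < β}.Nonempty := by
    obtain ⟨b, hb⟩ := exists_bound hc hu (Set.countable_range dd)
    exact ⟨b, fun k => hb _ ⟨k, rfl⟩⟩
  let δ : Ω := (wellFounded_lt (α := Ω)).min _ hne
  have hδ1 : ∀ k, dd k < δ := (wellFounded_lt (α := Ω)).min_mem _ hne
  have hδ2 : ∀ s, s < δ → ∃ k, s ≤ dd k := by
    intro s hs
    by_contra hcon
    push Not at hcon
    exact (wellFounded_lt (α := Ω)).not_lt_min _ (show s ∈ {β : Ω | ∀ k, dd k < β} from hcon) hs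
  have hδg : ∀ s, s < δ → g s < δ := by
    intro s hs
    obtain ⟨k, hk⟩ := hδ2 s hs
    have := hnx2 (dd k) s hk
    rw [← hdd k] at this
    exact lt_trans this (hδ1 (k + 1))
  -- nonconstancy
  have hnc : ∀ x, Good ρ δ x → ∀ ε, ε < δ → ∀ c, ∃ ξ, ε ≤ ξ ∧ ξ < δ ∧ x ξ ≠ c := by
    intro x hx ε hε c
    by_contra hcon
    push Not at hcon
    obtain ⟨k, hk⟩ := hδ2 ε hε
    have h1 : (Set.range (fun j : ℕ => dd (k + j))).Infinite := by
      apply Set.infinite_range_of_injective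
      intro a b hab
      have := hddmono.injective hab
      omega
    apply h1
    refine (hx.fin hρ c).subset ?_
    rintro _ ⟨j, rfl⟩
    refine ⟨hδ1 _, hcon _ (le_trans hk (hddmono.monotone (Nat.le_add_right k j))) (hδ1 _)⟩
  -- the main claim
  have hmain : ∀ n x, x ∈ LL ρ → Good ρ δ x →
      ∃ U ∈ 𝒰 n, ∀ x' ∈ LL ρ, Agree δ x' x → x' ∈ U := by
    intro n x hx hgx
    set y := cut m δ x with hydef
    have hyL : y ∈ LL ρ := ⟨δ, cut_mem_CC m hgx⟩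
    have hyne : ∃ ξ, y ξ ≠ m := by
      obtain ⟨ξ, _, h2, h3⟩ := hnc x hgx a₀ (hδ1 0) m
      exact ⟨ξ, by rw [hydef, cut_lt m x h2]; exact h3⟩
    have hs := (hσ n y hyL hyne).1
    have hslt : σ n y < δ := by
      by_contra hcon
      exact hs (by rw [hydef, cut_ge m x (not_lt.mp hcon)])
    obtain ⟨t, ht1, ht2⟩ := exists_rep hρ m hyL (sc (σ n y))
    have hyP : y ∈ P n (σ n y) t :=
      ⟨hyL, hyne, rfl, fun ξ hξ => (ht2 ξ (lt_of_le_of_lt hξ (hsc _))).symm⟩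
    obtain ⟨d, hd, hnlt⟩ := hD3 n (σ n y) t y hyP
    obtain ⟨hdL, hdne, hdσ, hdt⟩ := hD1 n (σ n y) t hd
    have hdh : h d < g (σ n y) := hg (σ n y) n t ht1 d hd
    have hdC : d ∈ CC ρ (g (σ n y)) := CC_mono ρ hdh.le (hh d hdL)
    refine ⟨N n d, (hN n d hdL).1, ?_⟩
    intro x' hx' hag
    apply (hσ n d hdL hdne).2 x' hx'
    · rintro ⟨ζ, h1, h2⟩
      rcases lt_or_ge ζ δ with h3 | h3
      · apply hnlt
        refine ⟨ζ, ?_, ?_⟩
        · intro η hη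
          rw [← h1 η hη, hydef, cut_lt m x (lt_trans hη h3)]
          exact (hag η (lt_trans hη h3)).symm
        · rw [hydef, cut_lt m x h3, ← hag ζ h3]
          exact h2
      · obtain ⟨ε, hε1, _, c, hc'⟩ := hdC
        have hgx' : Good ρ δ x' := hgx.congr hag.symm
        obtain ⟨ξ, h4, h5, h6⟩ := hnc x' hgx' ε (lt_of_le_of_lt hε1 (hδg _ hslt)) c
        apply h6
        rw [h1 ξ (lt_of_lt_of_le h5 h3)]
        exact hc' ξ h4
    · intro ξ hξ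
      rw [hdσ] at hξ
      rw [hdt ξ hξ, ht2 ξ (lt_of_le_of_lt hξ (hsc _)), hydef,
        cut_lt m x (lt_of_le_of_lt hξ hslt)]
      exact hag ξ (lt_of_le_of_lt hξ hslt)
  have hV : ∀ n x, ∃ U, x ∈ LL ρ → U ∈ 𝒰 n ∧
      (Good ρ δ x → ∀ x' ∈ LL ρ, Agree δ x' x → x' ∈ U) := by
    intro n x
    by_cases h1 : x ∈ LL ρ
    · by_cases h2 : Good ρ δ x
      · obtain ⟨U, h3, h4⟩ := hmain n x h1 h2
        exact ⟨U, fun _ => ⟨h3, fun _ => h4⟩⟩
      · exact ⟨N n x, fun _ => ⟨(hN n x h1).1, fun h => absurd h h2⟩⟩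
    · exact ⟨∅, fun h => absurd h h1⟩
  choose V hV using hV
  -- enumerate the countable set
  have hCne : (CC ρ δ).Nonempty := by
    have hne' : (Set.univ : Set Ω).Nonempty := ⟨a₀, trivial⟩
    let b : Ω := (wellFounded_lt (α := Ω)).min _ hne'
    have hb : ∀ ξ, ¬ ξ < b := fun ξ => (wellFounded_lt (α := Ω)).not_lt_min _ (Set.mem_univ ξ)
    refine ⟨fun _ => m, b, not_lt.mp (hb δ), ?_, m, fun _ _ => rfl⟩
    refine Set.finite_empty.subset ?_
    rintro ξ ⟨h1, _⟩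
    exact hb ξ h1
  obtain ⟨z, hz⟩ := (countable_CC hc ρ δ).exists_eq_range hCne
  have hzC : ∀ k, z k ∈ CC ρ δ := fun k => by rw [hz]; exact ⟨k, rfl⟩
  have hzL : ∀ k, z k ∈ LL ρ := fun k => ⟨δ, hzC k⟩
  refine ⟨fun n => if n % 2 = 0 then N n (z (n / 2)) else V n (z (n / 2)), ?_, ?_⟩
  · intro n
    by_cases hn : n % 2 = 0
    · simp only [hn, if_true]
      exact (hN n _ (hzL _)).1
    · simp only [hn, if_false]
      exact (hV n _ (hzL _)).1
  · intro x hx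
    rcases LL_or hρ hx δ with h1 | h1
    · rw [hz] at h1
      obtain ⟨k, rfl⟩ := h1
      refine ⟨2 * k, ?_⟩
      have e1 : (2 * k) % 2 = 0 := by omega
      have e2 : (2 * k) / 2 = k := by omega
      simp only [e1, if_true, e2]
      exact (hN _ _ hx).2
    · obtain ⟨w, hw1, hw2⟩ := exists_rep hρ m hx δ
      rw [hz] at hw1
      obtain ⟨k, rfl⟩ := hw1
      refine ⟨2 * k + 1, ?_⟩
      have e1 : ¬ (2 * k + 1) % 2 = 0 := by omega
      have e2 : (2 * k + 1) / 2 = k := by omega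
      simp only [e1, if_false, e2]
      exact (hV _ _ (hzL k)).2 (h1.congr hw2.symm) x hx hw2.symm

end Pool.Agent.Lib.MP_f9bcb0_lc
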