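import Mathlib

/-!
A coherent family of finite-to-one functions on a well-ordered set all of whose proper
initial segments are countable.
-/

set_option autoImplicit false

namespace Pool.Agent.Lib.MP_f9bcb0_lc

universe u

variable {Ω : Type u} [LinearOrder Ω] [WellFoundedLT Ω]

set_option linter.unusedSectionVars false

/-- the step function: the element of `[α, β)` with the least `e β`-value -/
noncomputable def step (e : Ω → Ω → ℕ) (β α : Ω) : Ω := by
  classical
  exact if h : α < β then Function.argminOn (e β) (Set.Ico α β) ⟨α, le_refl α, h⟩ else α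

theorem step_mem (e : Ω → Ω → ℕ) {β α : Ω} (h : α < β) :
    α ≤ step e β α ∧ step e β α < β := by
  have : step e β α = Function.argminOn (e β) (Set.Ico α β) ⟨α, le_refl α, h⟩ := by
    simp [step, h]
  rw [this]
  exact Function.argminOn_mem (e β) (Set.Ico α β) ⟨α, le_refl α, h⟩

theorem step_min (e : Ω → Ω → ℕ) {β α η : Ω} (h1 : α ≤ η) (h2 : η < β) :
    e β (step e β α) ≤ e β η := by
  have h : α < β := lt_of_le_of_lt h1 h2
  have : step e β α = Function.argminOn (e β) (Set.Ico α β) ⟨α, le_refl α, h⟩ := by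
    simp [step, h]
  rw [this]
  exact Function.argminOn_le (e β) (Set.Ico α β) ⟨h1, h2⟩

open Classical in
/-- one step of the recursion -/
noncomputable def rhoStep (e : Ω → Ω → ℕ) (β : Ω) (ih : ∀ y : Ω, y < β → Ω → ℕ) : Ω → ℕ :=
  fun α => if h : α < β then max (e β (step e β α)) (ih (step e β α) (step_mem e h).2 α) else 0

/-- the coherent family -/
noncomputable def rho (e : Ω → Ω → ℕ) : Ω → Ω → ℕ :=
  (wellFounded_lt (α := Ω)).fix (rhoStep e)

theorem rho_eq (e : Ω → Ω → ℕ) {β α : Ω} (h : α < β) :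
    rho e β α = max (e β (step e β α)) (rho e (step e β α) α) := by
  have h1 : rho e β = rhoStep e β (fun y _ => rho e y) :=
    (wellFounded_lt (α := Ω)).fix_eq (rhoStep e) β
  rw [h1]
  simp only [rhoStep, h, dite_true]

/-- finite-to-one -/
theorem rho_finite (e : Ω → Ω → ℕ) (he : ∀ β, Set.InjOn (e β) (Set.Iio β)) (n : ℕ) (β : Ω) :
    {α | α < β ∧ rho e β α ≤ n}.Finite := by
  induction β using WellFoundedLT.induction with
  | ind β ih =>
    have hF : {ξ | ξ < β ∧ e β ξ ≤ n}.Finite := by
      apply Set.Finite.of_finite_image (f := e β)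
      · apply (Set.finite_le_nat n).subset
        rintro _ ⟨ξ, hξ, rfl⟩
        exact hξ.2
      · intro a ha b hb hab
        exact he β ha.1 hb.1 hab
    have hsub : {α | α < β ∧ rho e β α ≤ n} ⊆
        ⋃ ξ ∈ {ξ | ξ < β ∧ e β ξ ≤ n}, ({α | α < ξ ∧ rho e ξ α ≤ n} ∪ {ξ}) := by
      rintro α ⟨h1, h2⟩
      rw [rho_eq e h1] at h2
      have h3 := step_mem e h1
      simp only [Set.mem_iUnion]
      refine ⟨step e β α, ⟨h3.2, le_trans (le_max_left _ _) h2⟩, ?_⟩
      rcases h3.1.lt_or_eq with h | h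
      · left
        exact ⟨h, le_trans (le_max_right _ _) h2⟩
      · right
        exact h
    refine Set.Finite.subset (Set.Finite.biUnion hF ?_) hsub
    rintro ξ ⟨h1, -⟩
    exact (ih ξ h1).union (Set.finite_singleton ξ)

/-- coherence -/
theorem rho_coherent (e : Ω → Ω → ℕ) (he : ∀ β, Set.InjOn (e β) (Set.Iio β)) (γ : Ω) :
    ∀ β, β < γ → {α | α < β ∧ rho e β α ≠ rho e γ α}.Finite := by
  induction γ using WellFoundedLT.induction with
  | ind γ ih =>
    intro β hβ
    set ξ₀ := step e γ β with hξ₀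
    have hξ₀m := step_mem e hβ
    have hF : {ξ | ξ < γ ∧ e γ ξ ≤ e γ ξ₀}.Finite := by
      apply Set.Finite.of_finite_image (f := e γ)
      · apply (Set.finite_le_nat (e γ ξ₀)).subset
        rintro _ ⟨ξ, hξ, rfl⟩
        exact hξ.2
      · intro a ha b hb hab
        exact he γ ha.1 hb.1 hab
    have hsub : {α | α < β ∧ rho e β α ≠ rho e γ α} ⊆
        ⋃ ξ ∈ {ξ | ξ < γ ∧ e γ ξ ≤ e γ ξ₀},
          (({α | α < β ∧ α < ξ ∧ rho e β α ≠ rho e ξ α} ∪
            {α | α < ξ ∧ rho e ξ α ≤ e γ ξ}) ∪ {ξ}) := by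
      rintro α ⟨h1, h2⟩
      have h1' : α < γ := lt_trans h1 hβ
      have h3 := step_mem e h1'
      simp only [Set.mem_iUnion]
      refine ⟨step e γ α, ⟨h3.2, step_min e (le_trans h1.le hξ₀m.1) hξ₀m.2⟩, ?_⟩
      rcases h3.1.lt_or_eq with h | h
      · left
        by_cases h4 : rho e (step e γ α) α ≤ e γ (step e γ α)
        · right
          exact ⟨h, h4⟩
        · left
          refine ⟨h1, h, ?_⟩
          intro h5
          apply h2
          rw [rho_eq e h1', h5]
          exact (max_eq_right (le_of_lt (not_le.mp h4))).symm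
      · right
        exact h
    refine Set.Finite.subset (Set.Finite.biUnion hF ?_) hsub
    rintro ξ ⟨h1, -⟩
    refine Set.Finite.union (Set.Finite.union ?_ ?_) (Set.finite_singleton ξ)
    · rcases lt_trichotomy β ξ with h | h | h
      · refine (ih ξ h1 β h).subset ?_
        rintro α ⟨a1, _, a3⟩
        exact ⟨a1, a3⟩
      · subst h
        refine (Set.finite_empty).subset ?_
        rintro α ⟨a1, _, a3⟩
        exact a3 rfl
      · refine (ih β hβ ξ h).subset ?_
        rintro α ⟨_, a2, a3⟩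
        exact ⟨a2, fun h => a3 h.symm⟩
    · exact rho_finite e he (e γ ξ) ξ

/-- Existence of a coherent family of finite-to-one functions. -/
theorem exists_coherent (hc : ∀ a : Ω, (Set.Iio a).Countable) :
    ∃ ρ : Ω → Ω → ℕ, (∀ β n, {α | α < β ∧ ρ β α = n}.Finite) ∧
      (∀ β γ, β ≤ γ → {α | α < β ∧ ρ β α ≠ ρ γ α}.Finite) := by
  have h1 : ∀ β : Ω, ∃ f : Ω → ℕ, Set.InjOn f (Set.Iio β) := by
    intro β
    exact (Set.countable_iff_exists_injOn).mp (hc β)
  choose e he using h1
  refine ⟨rho e, ?_, ?_⟩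
  · intro β n
    refine (rho_finite e he n β).subset ?_
    rintro α ⟨h1, h2⟩
    exact ⟨h1, h2.le⟩
  · intro β γ h
    rcases h.lt_or_eq with h | h
    · exact rho_coherent e he γ β h
    · subst h
      refine (Set.finite_empty).subset ?_
      rintro α ⟨_, a3⟩
      exact a3 rfl

end Pool.Agent.Lib.MP_f9bcb0_lc
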